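import Pool.Agent.TH440.RM3.Stp

/-!
The letters of a word generated by a machine are computed by a function of the class `LS`.
-/

set_option autoImplicit false

namespace Pool.Agent.TH440.RM3

open Pool.Agent.H584R2.Dg Pool.Agent.H539R2
open Pool.Agent.TH440.RM2 (tb dg_tb dg_cons dg_zero)

section

variable {Q : Type} {k : ℕ} (m : Machine k Q)

theorem conf_succ (t : ℕ) : m.conf (t + 1) = m.step (m.conf t) := by
  unfold Machine.conf
  rw [Function.iterate_succ_apply']

theorem len_step (c : Cfg m) : c.out.length ≤ (m.step c).out.length ∧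
    (m.step c).out.length ≤ c.out.length + 1 := by
  show c.out.length ≤ (c.out ++ (m.δ c.st (fun i => (c.tape i).cell
    (c.tape i).head)).2.2.toList).length ∧ (c.out ++ (m.δ c.st (fun i => (c.tape i).cell
    (c.tape i).head)).2.2.toList).length ≤ c.out.length + 1
  rw [List.length_append]
  cases (m.δ c.st (fun i => (c.tape i).cell (c.tape i).head)).2.2 with
  | none => simp
  | some q => simp

theorem len_mono {s t : ℕ} (h : s ≤ t) : (m.conf s).out.length ≤ (m.conf t).out.length := by
  induction t, h using Nat.le_induction with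
  | base => exact le_rfl
  | succ t _ ih =>
    rw [conf_succ]
    exact ih.trans (len_step m _).1

/-- equality up to the output -/
def E (c c' : Cfg m) : Prop := c.st = c'.st ∧ c.tape = c'.tape ∧ c.out.length = c'.out.length

variable {m}

theorem E_step {c c' : Cfg m} (h : E m c c') : E m (m.step c) (m.step c') := by
  obtain ⟨s, tp, o⟩ := c
  obtain ⟨s', tp', o'⟩ := c'
  obtain ⟨h1, h2, h3⟩ := h
  simp only at h1 h2 h3
  subst h1
  subst h2
  refine ⟨rfl, rfl, ?_⟩
  show (o ++ _).length = (o' ++ _).length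
  rw [List.length_append, List.length_append, h3]

theorem E_conf {a b : ℕ} (h : E m (m.conf a) (m.conf b)) (s : ℕ) :
    E m (m.conf (a + s)) (m.conf (b + s)) := by
  induction s with
  | zero => exact h
  | succ s ih =>
    rw [← add_assoc, ← add_assoc, conf_succ, conf_succ]
    exact E_step ih

theorem no_rep {v : ℕ → Q} (hv : m.Generates v) {a b : ℕ} (hab : a < b)
    (h : E m (m.conf a) (m.conf b)) : False := by
  obtain ⟨p, hp, rfl⟩ : ∃ p, 1 ≤ p ∧ b = a + p := ⟨b - a, by omega, by omega⟩
  have key : ∀ n, (m.conf (a + n * p)).out.length = (m.conf a).out.length := by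
    intro n
    induction n with
    | zero => simp
    | succ n ih =>
      have h1 := (E_conf h (n * p)).2.2
      have e : a + p + n * p = a + (n + 1) * p := by ring
      rw [e] at h1
      rw [← h1, ih]
  obtain ⟨t, ht⟩ := hv.2 ((m.conf a).out.length + 1)
  have h2 : t ≤ a + t * p := (Nat.le_mul_of_pos_right t hp).trans (Nat.le_add_left _ _)
  have h3 := len_mono m h2
  rw [key t] at h3
  omega

theorem tape_ext {Γ : Type} (x y : Tape Γ) (h1 : x.cell = y.cell) (h2 : x.head = y.head) :
    x = y := by
  cases x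
  cases y
  simp_all

theorem T_le {v : ℕ → Q} (hv : m.Generates v) {cS : m.St → ℕ} {cs : m.Sym → ℕ}
    {dS : ℕ → m.St} {ds : ℕ → m.Sym} {nS g : ℕ} (hS : ∀ s, cS s < nS) (hdS : ∀ s, dS (cS s) = s)
    (hs : ∀ s, cs s < g) (hds : ∀ s, ds (cs s) = s) (l R T : ℕ)
    (hsp : ∀ t < T, ∀ i, ((m.conf t).tape i).head < R ∧
      ∀ j, R ≤ j → ((m.conf t).tape i).cell j = m.blank)
    (hl : ∀ t < T, (m.conf t).out.length ≤ l) :
    T ≤ (l + 1) * (nS * (R * g ^ R) ^ k) := by
  classical
  let f : ℕ → ℕ × ℕ × (Fin k → ℕ × ℕ) := fun t => ((m.conf t).out.length, cS (m.conf t).st,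
    fun i => (((m.conf t).tape i).head, tb g (fun j => cs (((m.conf t).tape i).cell j)) R))
  have hmaps : ∀ t ∈ Finset.range T, f t ∈ Finset.range (l + 1) ×ˢ (Finset.range nS ×ˢ
      Fintype.piFinset (fun _ : Fin k => Finset.range R ×ˢ Finset.range (g ^ R))) := by
    intro t ht
    rw [Finset.mem_range] at ht
    rw [Finset.mem_product, Finset.mem_product, Fintype.mem_piFinset]
    refine ⟨?_, ?_, ?_⟩
    · rw [Finset.mem_range]
      exact Nat.lt_succ_of_le (hl t ht)
    · rw [Finset.mem_range]
      exact hS _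
    · intro i
      rw [Finset.mem_product, Finset.mem_range, Finset.mem_range]
      exact ⟨(hsp t ht i).1, tb_lt g R _ (fun _ _ => hs _)⟩
  have hE : ∀ a < T, ∀ b < T, f a = f b → E m (m.conf a) (m.conf b) := by
    intro a ha b hb hab
    have h1 : (m.conf a).out.length = (m.conf b).out.length := congrArg Prod.fst hab
    have h2 : cS (m.conf a).st = cS (m.conf b).st := congrArg (fun p => p.2.1) hab
    have h3 : ∀ i, ((m.conf a).tape i).head = ((m.conf b).tape i).head := fun i =>
      congrArg (fun p => (p.2.2 i).1) hab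
    have h4 : ∀ i, tb g (fun j => cs (((m.conf a).tape i).cell j)) R =
        tb g (fun j => cs (((m.conf b).tape i).cell j)) R := fun i =>
      congrArg (fun p => (p.2.2 i).2) hab
    refine ⟨?_, ?_, h1⟩
    · rw [← hdS (m.conf a).st, h2, hdS]
    · funext i
      refine tape_ext _ _ ?_ (h3 i)
      funext j
      by_cases hj : j < R
      · have e1 := dg_tb g R (fun j => cs (((m.conf a).tape i).cell j)) (fun _ => hs _) j hj
        have e2 := dg_tb g R (fun j => cs (((m.conf b).tape i).cell j)) (fun _ => hs _) j hj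
        rw [h4 i, e2] at e1
        have e3 : cs (((m.conf b).tape i).cell j) = cs (((m.conf a).tape i).cell j) := e1
        rw [← hds (((m.conf a).tape i).cell j), ← e3, hds]
      · rw [(hsp a ha i).2 j (by omega), (hsp b hb i).2 j (by omega)]
  have hinj : Set.InjOn f (Finset.range T : Set ℕ) := by
    intro a ha b hb hab
    rw [Finset.mem_coe, Finset.mem_range] at ha hb
    rcases lt_trichotomy a b with h | h | h
    · exact (no_rep hv h (hE a ha b hb hab)).elim
    · exact h
    · exact (no_rep hv h (hE b hb a ha hab.symm)).elim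
  have := Finset.card_le_card_of_injOn f hmaps hinj
  rw [Finset.card_range, Finset.card_product, Finset.card_product, Fintype.card_piFinset,
    Finset.card_range, Finset.card_range] at this
  simpa [Finset.card_product] using this

end

theorem big (W A X l R : ℕ) (r : ℝ) (hW : 1 ≤ W) (hr : 0 ≤ r) (hR : (R : ℝ) ≤ r + 1)
    (hA : 1 + 2 * Real.log W ≤ A) (h : A * (r + Real.log (l + 1) + 1) ≤ Real.log X) :
    (l + 1) * W ^ (R + 1) ≤ X := by
  have hW0 : (0:ℝ) < W := by exact_mod_cast hW
  have hlW : 0 ≤ Real.log W := Real.log_nonneg (by exact_mod_cast hW)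
  have hl0 : (0:ℝ) < (l:ℝ) + 1 := by positivity
  have hll : 0 ≤ Real.log ((l:ℝ) + 1) := Real.log_nonneg (by linarith [Nat.cast_nonneg (α := ℝ) l])
  set L := Real.log ((l:ℝ) + 1) with hL
  set w := Real.log W with hw
  have h1 : 1 + 2 * w ≤ Real.log X := by
    have h2 : (A:ℝ) * 1 ≤ A * (r + L + 1) := mul_le_mul_of_nonneg_left (by linarith) (by linarith)
    linarith
  have hX : (0:ℝ) < X := by
    rcases Nat.eq_zero_or_pos X with h0 | h0
    · rw [h0, Nat.cast_zero, Real.log_zero] at h1
      linarith
    · exact_mod_cast h0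
  have h2 : Real.log (((l:ℝ) + 1) * (W:ℝ) ^ (R + 1)) ≤ Real.log X := by
    rw [Real.log_mul hl0.ne' (pow_pos hW0 _).ne', Real.log_pow]
    push_cast
    have h3 : ((R:ℝ) + 1) * w ≤ (r + 2) * w := mul_le_mul_of_nonneg_right (by linarith) hlW
    have h4 : (1 + 2 * w) * (r + L + 1) ≤ A * (r + L + 1) :=
      mul_le_mul_of_nonneg_right hA (by linarith)
    have h5 : L + (r + 2) * w ≤ (1 + 2 * w) * (r + L + 1) := by
      have : 0 ≤ w * r := mul_nonneg hlW hr
      have : 0 ≤ w * L := mul_nonneg hlW hll
      nlinarith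
    linarith
  have h3 := (Real.log_le_log_iff (mul_pos hl0 (pow_pos hW0 _)) hX).1 h2
  exact_mod_cast h3

theorem mach : Pool.Agent.TH381.RM3.SMach := by
  intro Q _ k m v cq n0 hcq hv
  classical
  have := m.finSt
  have := m.finSym
  obtain ⟨nS, ⟨eS⟩⟩ := Finite.exists_equiv_fin m.St
  obtain ⟨g0, ⟨eG⟩⟩ := Finite.exists_equiv_fin m.Sym
  let cS : m.St → ℕ := fun s => (eS s : ℕ)
  let cs : m.Sym → ℕ := fun x => if x = m.blank then 0 else (eG x : ℕ) + 1
  have hS : ∀ s, cS s < nS := fun s => (eS s).2
  have hs : ∀ s, cs s < g0 + 1 := fun s => by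
    show (if s = m.blank then 0 else (eG s : ℕ) + 1) < g0 + 1
    have := (eG s).2
    split_ifs <;> omega
  have hcSi : Function.Injective cS := fun a b hab => eS.injective (Fin.ext hab)
  have hcsi : Function.Injective cs := by
    intro a b hab
    change (if a = m.blank then 0 else (eG a : ℕ) + 1) =
      (if b = m.blank then 0 else (eG b : ℕ) + 1) at hab
    by_cases ha : a = m.blank
    · by_cases hb : b = m.blank
      · rw [ha, hb]
      · rw [if_pos ha, if_neg hb] at hab
        omega
    · by_cases hb : b = m.blank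
      · rw [if_neg ha, if_pos hb] at hab
        omega
      · rw [if_neg ha, if_neg hb] at hab
        exact eG.injective (Fin.ext (by omega))
  have hblank : cs m.blank = 0 := if_pos rfl
  have : Nonempty m.St := ⟨m.start⟩
  have : Nonempty m.Sym := ⟨m.blank⟩
  have hdS : ∀ s, Function.invFun cS (cS s) = s := Function.leftInverse_invFun hcSi
  have hds : ∀ s, Function.invFun cs (cs s) = s := Function.leftInverse_invFun hcsi
  set dS := Function.invFun cS with hdSd
  set ds := Function.invFun cs with hdsd
  set g := g0 + 1 with hg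
  set W : ℕ := (2 * g) ^ (k + 1) * ((nS + 1) * (n0 + 2)) with hW
  have hg1 : 1 ≤ g := by omega
  have hp1 : 1 ≤ (2 * g) ^ (k + 1) := Nat.one_le_pow _ _ (by omega)
  have hW1 : 1 ≤ W := Nat.mul_pos hp1 (by positivity)
  have hWp : ∀ x, x ≤ (2 * g) ^ (k + 1) → x ≤ W := fun x hx =>
    hx.trans (Nat.le_mul_of_pos_right _ (by positivity))
  have hW2 : 2 * g ≤ W := hWp _ (Nat.le_self_pow (by omega) _)
  have hWk : (2 * g) ^ k ≤ W := hWp _ (Nat.pow_le_pow_right (by omega) (by omega))
  have hWS : nS + 1 ≤ W := by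
    calc nS + 1 ≤ (nS + 1) * (n0 + 2) := Nat.le_mul_of_pos_right _ (by omega)
      _ ≤ W := Nat.le_mul_of_pos_left _ hp1
  have hWn : n0 + 2 ≤ W := by
    calc n0 + 2 ≤ (nS + 1) * (n0 + 2) := Nat.le_mul_of_pos_left _ (by omega)
      _ ≤ W := Nat.le_mul_of_pos_left _ hp1
  set D := dat m cS cs cq dS ds nS g n0 with hD
  refine ⟨⌈1 + 2 * Real.log W⌉₊, D.sg, D.LS_sg, D.sg_le, ?_⟩
  intro X l r hr hsp hX
  set R := ⌈r⌉₊ with hR
  have hXb : (l + 1) * W ^ (R + 1) ≤ X :=
    big W _ X l R r hW1 hr (Nat.ceil_lt_add_one hr).le (Nat.le_ceil _) hX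
  have hWR1 : W ≤ W ^ (R + 1) := Nat.le_self_pow (by omega) _
  have hWRX : W ^ (R + 1) ≤ X := (Nat.le_mul_of_pos_left _ (by omega)).trans hXb
  have hlX : l + 1 ≤ X := (Nat.le_mul_of_pos_right _ (Nat.pow_pos hW1)).trans hXb
  have hgR : g ^ R ≤ X := by
    refine le_trans ?_ hWRX
    exact (Nat.pow_le_pow_left (by omega) R).trans (Nat.pow_le_pow_right hW1 (by omega))
  have hRX : R ≤ X := by
    refine le_trans ?_ hWRX
    calc R ≤ 2 ^ R := Nat.lt_two_pow_self.le
      _ ≤ W ^ R := Nat.pow_le_pow_left (by omega) R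
      _ ≤ W ^ (R + 1) := Nat.pow_le_pow_right hW1 (by omega)
  set T := m.T (l + 1) with hT
  have hTmem : l + 1 ≤ (m.conf T).out.length :=
    Nat.sInf_mem (s := {t | l + 1 ≤ (m.conf t).out.length}) (hv.2 (l + 1))
  have hTlt : ∀ t < T, (m.conf t).out.length ≤ l := by
    intro t ht
    have := Nat.notMem_of_lt_sInf (s := {t | l + 1 ≤ (m.conf t).out.length}) ht
    have h2 : ¬ l + 1 ≤ (m.conf t).out.length := this
    omega
  have hTe : (m.conf T).out.length = l + 1 := by
    rcases Nat.eq_zero_or_pos T with h0 | h0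
    · rw [h0] at hTmem
      have : (m.conf 0).out.length = 0 := rfl
      omega
    · obtain ⟨t, ht⟩ : ∃ t, T = t + 1 := ⟨T - 1, by omega⟩
      have h1 := hTlt t (by omega)
      have h2 := (len_step m (m.conf t)).2
      rw [← conf_succ, ← ht] at h2
      omega
  have hspn : ∀ t ≤ T, ∀ i, ((m.conf t).tape i).head < R ∧
      ∀ j, R ≤ j → ((m.conf t).tape i).cell j = m.blank := by
    intro t ht i
    obtain ⟨h1, h2⟩ := hsp t ht i
    refine ⟨?_, ?_⟩
    · have : (((m.conf t).tape i).head : ℝ) < R := h1.trans_le (Nat.le_ceil r)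
      exact_mod_cast this
    · intro j hj
      refine h2 j ((Nat.le_ceil r).trans ?_)
      exact_mod_cast hj
  have hTX : T ≤ X := by
    have h1 := T_le hv hS hdS hs hds l R T (fun t ht => hspn t ht.le) hTlt
    refine h1.trans (le_trans (Nat.mul_le_mul_left _ ?_) hXb)
    calc nS * (R * g ^ R) ^ k ≤ W * (2 ^ R * g ^ R) ^ k := by
          refine Nat.mul_le_mul (by omega) (Nat.pow_le_pow_left ?_ k)
          exact Nat.mul_le_mul_right _ Nat.lt_two_pow_self.le
      _ = W * ((2 * g) ^ k) ^ R := by
          rw [← mul_pow, ← pow_mul, ← pow_mul, mul_comm R k]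
      _ ≤ W * W ^ R := Nat.mul_le_mul_left _ (Nat.pow_le_pow_left hWk R)
      _ = W ^ (R + 1) := by rw [pow_succ, mul_comm]
  -- the digits are small
  have hlc : ∀ w : List Q, lc cq w ≤ n0 := by
    intro w
    unfold lc
    split
    · omega
    · exact hcq _
  have hsm : ∀ t ≤ T, ∀ j, j < 3 + 2 * k → cd m cS cs cq g R (m.conf t) j < X + 2 := by
    intro t ht j hj
    unfold cd
    split_ifs with h0 h1 h2 h3 h4 h5
    · have := hS (m.conf t).st
      omega
    · rcases Nat.lt_or_ge t T with h | h
      · have := hTlt t h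
        omega
      · have : t = T := by omega
        rw [this, hTe]
        omega
    · have := hlc (m.conf t).out
      omega
    · have := (hspn t ht ⟨j - 3, h4⟩).1
      omega
    · omega
    · have h6 := tb_lt g R (fun s => cs (((m.conf t).tape ⟨j - 3 - k, h5⟩).cell s))
        (fun _ _ => hs _)
      omega
    · omega
  -- the simulation
  have hsim : ∀ t ≤ T, D.zz (X + 2) l t = tb (X + 2) (cd m cS cs cq g R (m.conf t))
      (3 + 2 * k) := by
    intro t
    induction t with
    | zero =>
      intro _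
      show tb (X + 2) (fun j => min (if j = 0 then cS m.start else 0) (X + 2 - 1)) (3 + 2 * k) = _
      refine tb_congr _ _ _ _ (fun j hj => ?_)
      have h1 := hsm 0 (Nat.zero_le _) j hj
      have h2 : cd m cS cs cq g R (m.conf 0) j = if j = 0 then cS m.start else 0 := by
        have h3 : m.conf 0 = m.init := rfl
        rw [h3]
        unfold cd
        split_ifs with h0 h1 h2 h3 h4 h5
        · rfl
        · rfl
        · rfl
        · rfl
        · rfl
        · show tb g (fun _ => cs m.blank) R = 0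
          rw [hblank]
          clear * -
          induction R with
          | zero => rfl
          | succ R ih =>
            show 0 + g * tb g (fun _ => 0) R = 0
            rw [ih, mul_zero, add_zero]
        · rfl
      rw [h2] at h1
      rw [h2]
      omega
    | succ t ih =>
      intro ht
      have hz := ih (by omega)
      show D.sp (X + 2) l (D.zz (X + 2) l t) = _
      have hdig : ∀ j, j < 3 + 2 * k → dg (X + 2) (D.zz (X + 2) l t) j =
          cd m cS cs cq g R (m.conf t) j := by
        intro j hj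
        rw [hz]
        exact dg_tb' _ _ _ (hsm t (by omega)) j hj
      have hcnt : ¬ l < dg (X + 2) (D.zz (X + 2) l t) 1 := by
        rw [hdig 1 (by omega)]
        show ¬ l < (m.conf t).out.length
        have := hTlt t (by omega)
        omega
      unfold Dat.sp
      rw [if_neg hcnt]
      show tb (X + 2) _ (3 + 2 * k) = _
      refine tb_congr _ _ _ _ (fun j hj => ?_)
      have h1 := nx_cd (n0 := n0) (cq := cq) hS hdS hs hds (m.conf t) hdig
        (fun i => (hspn t (by omega) i).1) (by omega) j hj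
      rw [← conf_succ] at h1
      have h2 := hsm (t + 1) ht j hj
      rw [h1]
      omega
  have hstop : ∀ s, D.zz (X + 2) l (T + s) = D.zz (X + 2) l T := by
    intro s
    induction s with
    | zero => rfl
    | succ s ih =>
      show D.sp (X + 2) l (D.zz (X + 2) l (T + s)) = _
      rw [ih]
      unfold Dat.sp
      rw [if_pos]
      rw [hsim T le_rfl, dg_tb' _ _ _ (hsm T le_rfl) 1 (by omega)]
      show l < (m.conf T).out.length
      omega
  have hfin : dg (X + 2) (D.zz (X + 2) l X) 2 = lc cq (m.conf T).out := by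
    obtain ⟨s, hs⟩ : ∃ s, X = T + s := ⟨X - T, by omega⟩
    have h1 : D.zz (X + 2) l X = D.zz (X + 2) l T := by
      conv_lhs => rw [show D.zz (X + 2) l X = D.zz (X + 2) l (T + s) by rw [← hs]]
      exact hstop s
    rw [h1, hsim T le_rfl, dg_tb' _ _ _ (hsm T le_rfl) 2 (by omega)]
    rfl
  have hlast : lc cq (m.conf T).out = cq (v l) + 1 := by
    have h1 : (m.conf T).out.getLast? = some (v l) := by
      rw [List.getLast?_eq_getElem?, hTe, Nat.add_sub_cancel,
        List.getElem?_eq_getElem (by omega)]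
      rw [hv.1 T l (by omega)]
    unfold lc
    rw [h1]
  show min (dg (X + 2) (D.zz (X + 2) l X) 2 - 1) n0 = cq (v l)
  rw [hfin, hlast, Nat.add_sub_cancel]
  exact min_eq_left (hcq _).le

end Pool.Agent.TH440.RM3
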