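import Pool.Agent.TH440.RM2.Map

/-!
A machine simulated by functions on numbers: the numerical part.
-/

set_option autoImplicit false

namespace Pool.Agent.TH440.RM3

open Pool.Agent.H539R2 Pool.Agent.TH440.RM2

theorem tb_congr (R : ℕ) (N : ℕ) : ∀ (F G : ℕ → ℕ), (∀ i, i < N → F i = G i) →
    tb R F N = tb R G N := by
  induction N with
  | zero => intro F G _; rfl
  | succ N ih =>
    intro F G h
    show F 0 + R * tb R (fun i => F (i + 1)) N = G 0 + R * tb R (fun i => G (i + 1)) N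
    rw [h 0 (by omega), ih _ _ (fun i hi => h (i + 1) (by omega))]

theorem tb_lt (R : ℕ) (N : ℕ) : ∀ (F : ℕ → ℕ), (∀ i, i < N → F i < R) → tb R F N < R ^ N := by
  induction N with
  | zero => intro F _; simp [tb]
  | succ N ih =>
    intro F h
    have h1 : tb R (fun i => F (i + 1)) N + 1 ≤ R ^ N := ih _ (fun i hi => h (i + 1) (by omega))
    have h2 := h 0 (by omega)
    calc F 0 + R * tb R (fun i => F (i + 1)) N < R + R * tb R (fun i => F (i + 1)) N := by omega
      _ = R * (tb R (fun i => F (i + 1)) N + 1) := by ring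
      _ ≤ R * R ^ N := Nat.mul_le_mul_left _ h1
      _ = R ^ (N + 1) := by rw [pow_succ']

theorem dg_tb' (R : ℕ) (N : ℕ) (F : ℕ → ℕ) (h : ∀ i, i < N → F i < R) (i : ℕ) (hi : i < N) :
    dg R (tb R F N) i = F i := by
  have h1 : tb R F N = tb R (fun j => if j < N then F j else 0) N :=
    tb_congr R N _ _ (fun j hj => by simp [hj])
  have hR : 0 < R := lt_of_le_of_lt (Nat.zero_le _) (h i hi)
  rw [h1, dg_tb R N _ (fun j => by
    show (if j < N then F j else 0) < R
    split_ifs with hj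
    · exact h j hj
    · exact hR) i hi]
  simp [hi]

theorem tb_update (R a : ℕ) (N : ℕ) : ∀ (F : ℕ → ℕ) (h : ℕ), h < N →
    tb R (Function.update F h a) N + F h * R ^ h = tb R F N + a * R ^ h := by
  induction N with
  | zero => intro F h hh; omega
  | succ N ih =>
    intro F h hh
    cases h with
    | zero =>
      show Function.update F 0 a 0 + R * tb R (fun i => Function.update F 0 a (i + 1)) N +
        F 0 * R ^ 0 = F 0 + R * tb R (fun i => F (i + 1)) N + a * R ^ 0
      have e : (fun i => Function.update F 0 a (i + 1)) = fun i => F (i + 1) := by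
        funext i
        rw [Function.update_of_ne (by omega)]
      rw [e, Function.update_self]
      ring
    | succ h =>
      show Function.update F (h + 1) a 0 + R * tb R (fun i => Function.update F (h + 1) a (i + 1)) N
        + F (h + 1) * R ^ (h + 1) = F 0 + R * tb R (fun i => F (i + 1)) N + a * R ^ (h + 1)
      have e : (fun i => Function.update F (h + 1) a (i + 1)) =
          Function.update (fun i => F (i + 1)) h a := by
        funext i
        by_cases hi : i = h
        · subst hi; simp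
        · rw [Function.update_of_ne (by omega), Function.update_of_ne hi]
      rw [e, Function.update_of_ne (by omega)]
      have := ih (fun i => F (i + 1)) h (by omega)
      calc F 0 + R * tb R (Function.update (fun i => F (i + 1)) h a) N + F (h + 1) * R ^ (h + 1)
          = F 0 + R * (tb R (Function.update (fun i => F (i + 1)) h a) N +
            F (h + 1) * R ^ h) := by ring
        _ = F 0 + R * (tb R (fun i => F (i + 1)) N + a * R ^ h) := by rw [this]
        _ = _ := by ring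

theorem LS_powc {B : (ℕ → ℕ) → ℕ} (hB : LS B) (n : ℕ) : LS (fun ρ => B ρ ^ n) := by
  induction n with
  | zero => exact (LS.const 1).congr (fun ρ => by simp)
  | succ n ih => exact (ih.mul hB).congr (fun ρ => by rw [pow_succ])

theorem LS_tb {B : (ℕ → ℕ) → ℕ} (hB : LS B) (N : ℕ) : ∀ (F : ℕ → (ℕ → ℕ) → ℕ),
    (∀ i, LS (F i)) → LS (fun ρ => tb (B ρ) (fun i => F i ρ) N) := by
  induction N with
  | zero => intro F _; exact LS.zero
  | succ N ih =>
    intro F hF
    exact (hF 0).add (hB.mul (ih (fun i => F (i + 1)) (fun i => hF (i + 1))))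

/-- A function on the numbers below `N`. -/
def fx (F : ℕ → ℕ) (N x : ℕ) : ℕ := if x < N then F x else 0

theorem LS_fx (F : ℕ → ℕ) (N : ℕ) {x : (ℕ → ℕ) → ℕ} (hx : LS x) :
    LS (fun ρ => fx F N (x ρ)) := by
  induction N with
  | zero => exact LS.zero.congr (fun ρ => by simp [fx])
  | succ N ih =>
    apply (ih.add (LS.ite (LSP.eq hx (LS.const N)) (LS.const (F N)) LS.zero)).congr
    intro ρ
    show (if x ρ < N then F (x ρ) else 0) + (if x ρ = N then F N else 0) =
      if x ρ < N + 1 then F (x ρ) else 0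
    rcases lt_trichotomy (x ρ) N with h | h | h
    · rw [if_pos h, if_neg (by omega), if_pos (by omega), add_zero]
    · rw [if_neg (by omega), if_pos h, if_pos (by omega), h, zero_add]
    · rw [if_neg (by omega), if_neg (by omega), if_neg (by omega)]

/-- The data of the simulation. -/
structure Dat where
  k : ℕ
  nS : ℕ
  g : ℕ
  a : ℕ
  n0 : ℕ
  FS : ℕ → ℕ
  FO : ℕ → ℕ
  FY : ℕ → ℕ → ℕ
  FD : ℕ → ℕ → ℕ

namespace Dat

variable (D : Dat)

/-- the scanned symbol -/
def sc (B z i : ℕ) : ℕ := dg D.g (dg B z (3 + D.k + i)) (dg B z (3 + i))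

/-- the code of the state and the scanned symbols -/
def ky (B z : ℕ) : ℕ := dg B z 0 + D.nS * tb D.g (fun i => D.sc B z i) D.k

/-- number of keys -/
def nk : ℕ := D.nS * D.g ^ D.k

/-- new digits -/
def nx (B z j : ℕ) : ℕ :=
  if j = 0 then fx D.FS D.nk (D.ky B z)
  else if j = 1 then dg B z 1 + (if fx D.FO D.nk (D.ky B z) = 0 then 0 else 1)
  else if j = 2 then
    (if fx D.FO D.nk (D.ky B z) = 0 then dg B z 2 else fx D.FO D.nk (D.ky B z))
  else if j < 3 + D.k then dg B z j + fx (D.FD (j - 3)) D.nk (D.ky B z) - 1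
  else dg B z j + fx (D.FY (j - 3 - D.k)) D.nk (D.ky B z) * powT B D.g (dg B z (j - D.k)) -
    D.sc B z (j - 3 - D.k) * powT B D.g (dg B z (j - D.k))

/-- step -/
def sp (B l z : ℕ) : ℕ :=
  if l < dg B z 1 then z else tb B (fun j => min (D.nx B z j) (B - 1)) (3 + 2 * D.k)

/-- initial number -/
def z0 (B : ℕ) : ℕ := tb B (fun j => min (if j = 0 then D.a else 0) (B - 1)) (3 + 2 * D.k)

/-- the numbers -/
def zz (B l t : ℕ) : ℕ := nrec (D.z0 B) (fun _ z => D.sp B l z) t

/-- the letter -/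
def sg (X l : ℕ) : ℕ := min (dg (X + 2) (D.zz (X + 2) l X) 2 - 1) D.n0

theorem LS_sc {B z : (ℕ → ℕ) → ℕ} (hB : LS B) (hz : LS z) (i : ℕ) :
    LS (fun ρ => D.sc (B ρ) (z ρ) i) :=
  LS.dg (LS.const D.g) (LS.dg hB hz (LS.const (3 + D.k + i))) (LS.dg hB hz (LS.const (3 + i)))

theorem LS_ky {B z : (ℕ → ℕ) → ℕ} (hB : LS B) (hz : LS z) : LS (fun ρ => D.ky (B ρ) (z ρ)) :=
  (LS.dg hB hz (LS.const 0)).add ((LS.const D.nS).mul
    (LS_tb (LS.const D.g) D.k (fun i ρ => D.sc (B ρ) (z ρ) i) (fun i => D.LS_sc hB hz i)))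

theorem LS_nx {B z : (ℕ → ℕ) → ℕ} (hB : LS B) (hz : LS z) (j : ℕ) :
    LS (fun ρ => D.nx (B ρ) (z ρ) j) := by
  have hk := D.LS_ky hB hz
  unfold nx
  by_cases h0 : j = 0
  · simp only [if_pos h0]
    exact LS_fx D.FS D.nk hk
  · by_cases h1 : j = 1
    · simp only [if_neg h0, if_pos h1]
      exact (LS.dg hB hz (LS.const 1)).add (LS.ite0 (LS_fx D.FO D.nk hk) LS.zero (LS.const 1))
    · by_cases h2 : j = 2
      · simp only [if_neg h0, if_neg h1, if_pos h2]
        exact LS.ite0 (LS_fx D.FO D.nk hk) (LS.dg hB hz (LS.const 2)) (LS_fx D.FO D.nk hk)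
      · by_cases h3 : j < 3 + D.k
        · simp only [if_neg h0, if_neg h1, if_neg h2, if_pos h3]
          exact ((LS.dg hB hz (LS.const j)).add (LS_fx (D.FD (j - 3)) D.nk hk)).sub (LS.const 1)
        · simp only [if_neg h0, if_neg h1, if_neg h2, if_neg h3]
          have hp := LS.powT hB (LS.const D.g) (LS.dg hB hz (LS.const (j - D.k)))
          exact ((LS.dg hB hz (LS.const j)).add
            ((LS_fx (D.FY (j - 3 - D.k)) D.nk hk).mul hp)).sub
              ((D.LS_sc hB hz (j - 3 - D.k)).mul hp)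

theorem LS_sp {B l z : (ℕ → ℕ) → ℕ} (hB : LS B) (hl : LS l) (hz : LS z) :
    LS (fun ρ => D.sp (B ρ) (l ρ) (z ρ)) :=
  LS.ite (LSP.lt hl (LS.dg hB hz (LS.const 1))) hz
    (LS_tb hB (3 + 2 * D.k) (fun j ρ => min (D.nx (B ρ) (z ρ) j) (B ρ - 1))
      (fun j => LS.min (D.LS_nx hB hz j) (hB.sub (LS.const 1))))

theorem LS_z0 {B : (ℕ → ℕ) → ℕ} (hB : LS B) : LS (fun ρ => D.z0 (B ρ)) :=
  LS_tb hB (3 + 2 * D.k) (fun j ρ => min (if j = 0 then D.a else 0) (B ρ - 1))
    (fun _ => LS.min (LS.const _) (hB.sub (LS.const 1)))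

theorem zz_lt (B l : ℕ) (hB : 0 < B) (t : ℕ) : D.zz B l t < B ^ (3 + 2 * D.k) := by
  unfold zz
  induction t with
  | zero => exact tb_lt _ _ _ (fun i _ => by omega)
  | succ t ih =>
    rw [nrec_succ]
    show D.sp B l _ < _
    unfold sp
    split_ifs
    · exact ih
    · exact tb_lt _ _ _ (fun i _ => by omega)

theorem LS_sg : LS (fun ρ => D.sg (ρ 0) (ρ 1)) := by
  have h1 : LS (fun ρ => D.zz (ρ 0 + 2) (ρ 1) (ρ 0)) := by
    refine LS.nrecB (c := fun ρ => ρ 0) (a := fun ρ => D.z0 (ρ 0 + 2))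
      (b := fun _ z ρ => D.sp (ρ 0 + 2) (ρ 1) z) (g := fun ρ => (ρ 0 + 2) ^ (3 + 2 * D.k))
      (LS.var 0) (D.LS_z0 ((LS.var 0).add (LS.const 2))) ?_
      (LS_powc ((LS.var 0).add (LS.const 2)) _) ?_
    · exact D.LS_sp ((LS.var 2).add (LS.const 2)) (LS.var 3) (LS.var 0)
    · intro ρ t _
      exact (D.zz_lt (ρ 0 + 2) (ρ 1) (by omega) t).le
  exact LS.min ((LS.dg ((LS.var 0).add (LS.const 2)) h1 (LS.const 2)).sub (LS.const 1))
    (LS.const D.n0)

theorem sg_le (X l : ℕ) : D.sg X l ≤ D.n0 := min_le_right _ _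

end Dat

end Pool.Agent.TH440.RM3
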