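import Pool.Agent.TH440.RM3.Num
import Pool.Agent.TH381.RM3.Defs

/-!
A machine simulated by functions on numbers: the simulation of one step.
-/

set_option autoImplicit false

namespace Pool.Agent.TH440.RM3

open Pool.Agent.H584R2.Dg Pool.Agent.H539R2
open Pool.Agent.TH440.RM2 (tb dg_tb dg_cons dg_zero)

/-- codes of the directions -/
def dc : Dir → ℕ
  | .left => 0
  | .stay => 1
  | .right => 2

theorem dc_move (d : Dir) (h : ℕ) : h + dc d - 1 = d.move h := by
  cases d <;> simp [dc, Dir.move]

/-- codes of the last letters -/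
def lc {Q : Type} (cq : Q → ℕ) (v : List Q) : ℕ := match v.getLast? with
  | none => 0
  | some q => cq q + 1

section

variable {Q : Type} {k : ℕ} (m : Machine k Q) (cS : m.St → ℕ) (cs : m.Sym → ℕ) (cq : Q → ℕ)
  (dS : ℕ → m.St) (ds : ℕ → m.Sym) (nS g n0 : ℕ)

/-- the transition for a key -/
def res (j : ℕ) : m.St × (Fin k → m.Sym × Dir) × Option Q :=
  m.δ (dS (j % nS)) (fun i => ds (dg g (j / nS) i))

/-- code of an optional letter -/
def oc : Option Q → ℕ
  | none => 0
  | some q => cq q + 1

/-- The data of the simulation of the machine. -/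
def dat : Dat where
  k := k
  nS := nS
  g := g
  a := cS m.start
  n0 := n0
  FS := fun j => cS (res m dS ds nS g j).1
  FO := fun j => oc cq (res m dS ds nS g j).2.2
  FY := fun i j => if h : i < k then cs ((res m dS ds nS g j).2.1 ⟨i, h⟩).1 else 0
  FD := fun i j => if h : i < k then dc ((res m dS ds nS g j).2.1 ⟨i, h⟩).2 else 0

/-- the digits of a configuration -/
def cd (R : ℕ) (c : Cfg m) (j : ℕ) : ℕ :=
  if j = 0 then cS c.st
  else if j = 1 then c.out.length
  else if j = 2 then lc cq c.out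
  else if j < 3 + k then (if h : j - 3 < k then (c.tape ⟨j - 3, h⟩).head else 0)
  else (if h : j - 3 - k < k then tb g (fun t => cs ((c.tape ⟨j - 3 - k, h⟩).cell t)) R else 0)

theorem cd_head (R : ℕ) (c : Cfg m) (i : ℕ) (hi : i < k) :
    cd m cS cs cq g R c (3 + i) = (c.tape ⟨i, hi⟩).head := by
  unfold cd
  rw [if_neg (by omega), if_neg (by omega), if_neg (by omega), if_pos (by omega)]
  have e : 3 + i - 3 = i := by omega
  rw [dif_pos (by omega)]
  congr 3

theorem cd_tape (R : ℕ) (c : Cfg m) (i : ℕ) (hi : i < k) :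
    cd m cS cs cq g R c (3 + k + i) = tb g (fun t => cs ((c.tape ⟨i, hi⟩).cell t)) R := by
  unfold cd
  rw [if_neg (by omega), if_neg (by omega), if_neg (by omega), if_neg (by omega)]
  have e : (⟨3 + k + i - 3 - k, by omega⟩ : Fin k) = ⟨i, hi⟩ := Fin.ext (by
    show 3 + k + i - 3 - k = i
    omega)
  rw [dif_pos (by omega), e]

theorem upd_tb {R h : ℕ} (hh : h < R) (cell : ℕ → m.Sym) (s : m.Sym) :
    tb g (fun t => cs (Function.update cell h s t)) R =
      tb g (fun t => cs (cell t)) R + cs s * g ^ h - cs (cell h) * g ^ h := by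
  have e : (fun t => cs (Function.update cell h s t)) =
      Function.update (fun t => cs (cell t)) h (cs s) := by
    funext t
    by_cases ht : t = h
    · subst ht; simp
    · rw [Function.update_of_ne ht, Function.update_of_ne ht]
  have := tb_update g (cs s) R (fun t => cs (cell t)) h hh
  rw [e]
  omega

theorem lc_append (v : List Q) (o : Option Q) :
    lc cq (v ++ o.toList) = if oc cq o = 0 then lc cq v else oc cq o := by
  cases o with
  | none => simp [oc]
  | some q => simp [oc, lc]

variable {m cS cs cq dS ds nS g n0}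
variable (hS : ∀ s, cS s < nS) (hdS : ∀ s, dS (cS s) = s) (hs : ∀ s, cs s < g)
  (hds : ∀ s, ds (cs s) = s)
include hS hdS hs hds

theorem nx_cd {R B z : ℕ} (c : Cfg m) (hz : ∀ j, j < 3 + 2 * k → dg B z j = cd m cS cs cq g R c j)
    (hR : ∀ i, (c.tape i).head < R) (hB : g ^ R ≤ B) (j : ℕ) (hj : j < 3 + 2 * k) :
    (dat m cS cs cq dS ds nS g n0).nx B z j = cd m cS cs cq g R (m.step c) j := by
  have hg : 0 < g := lt_of_le_of_lt (Nat.zero_le _) (hs m.blank)
  set D := dat m cS cs cq dS ds nS g n0 with hD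
  have hhead : ∀ i (hi : i < k), dg B z (3 + i) = (c.tape ⟨i, hi⟩).head := fun i hi => by
    rw [hz _ (by omega), cd_head m cS cs cq g R c i hi]
  have htape : ∀ i (hi : i < k), dg B z (3 + k + i) =
      tb g (fun t => cs ((c.tape ⟨i, hi⟩).cell t)) R := fun i hi => by
    rw [hz _ (by omega), cd_tape m cS cs cq g R c i hi]
  have hsc : ∀ i (hi : i < k), D.sc B z i =
      cs ((c.tape ⟨i, hi⟩).cell (c.tape ⟨i, hi⟩).head) := fun i hi => by
    show dg g (dg B z (3 + k + i)) (dg B z (3 + i)) = _
    rw [hhead i hi, htape i hi, dg_tb g R _ (fun t => hs _) _ (hR _)]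
  set q : ℕ := tb g (fun i => D.sc B z i) k with hq
  have hql : q < g ^ k := tb_lt g k _ (fun i hi => by rw [hsc i hi]; exact hs _)
  have hky : D.ky B z = cS c.st + nS * q := by
    show dg B z 0 + nS * q = _
    rw [hz 0 (by omega)]
    rfl
  have hlt : D.ky B z < D.nk := by
    rw [hky]
    have h1 := hS c.st
    show cS c.st + nS * q < nS * g ^ k
    calc cS c.st + nS * q < nS + nS * q := by omega
      _ = nS * (q + 1) := by ring
      _ ≤ nS * g ^ k := Nat.mul_le_mul_left _ hql
  have hmod : D.ky B z % nS = cS c.st := by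
    rw [hky, Nat.add_mul_mod_self_left, Nat.mod_eq_of_lt (hS _)]
  have hdiv : D.ky B z / nS = q := by
    have h0 : 0 < nS := lt_of_le_of_lt (Nat.zero_le _) (hS c.st)
    rw [hky, Nat.add_mul_div_left _ _ h0, Nat.div_eq_of_lt (hS _), zero_add]
  have hres : res m dS ds nS g (D.ky B z) =
      m.δ c.st (fun i => (c.tape i).cell (c.tape i).head) := by
    unfold res
    rw [hmod, hdiv, hdS]
    congr 1
    funext i
    have h1 : dg g q i = D.sc B z i :=
      dg_tb' g k _ (fun t ht => by rw [hsc t ht]; exact hs _) i i.2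
    rw [h1, hsc i i.2, hds]
  set r := m.δ c.st (fun i => (c.tape i).cell (c.tape i).head) with hr
  have hst : m.step c = ⟨r.1, fun i => ⟨Function.update (c.tape i).cell (c.tape i).head (r.2.1 i).1,
    (r.2.1 i).2.move (c.tape i).head⟩, c.out ++ r.2.2.toList⟩ := rfl
  have hfx : ∀ F : ℕ → ℕ, fx F D.nk (D.ky B z) = F (D.ky B z) := fun F => by
    unfold fx
    rw [if_pos hlt]
  unfold Dat.nx
  by_cases h0 : j = 0
  · subst h0
    rw [if_pos rfl, hfx]
    show cS (res m dS ds nS g (D.ky B z)).1 = cS (m.step c).st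
    rw [hres, hst]
  by_cases h1 : j = 1
  · subst h1
    rw [if_neg (by omega), if_pos rfl, hfx, hz 1 (by omega)]
    show c.out.length + (if oc cq (res m dS ds nS g (D.ky B z)).2.2 = 0 then 0 else 1) =
      (m.step c).out.length
    rw [hres, hst]
    show _ = (c.out ++ r.2.2.toList).length
    rw [List.length_append]
    cases r.2.2 with
    | none => simp [oc]
    | some q => simp [oc]
  by_cases h2 : j = 2
  · subst h2
    rw [if_neg (by omega), if_neg (by omega), if_pos rfl, hfx, hz 2 (by omega)]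
    show (if oc cq (res m dS ds nS g (D.ky B z)).2.2 = 0 then lc cq c.out else
      oc cq (res m dS ds nS g (D.ky B z)).2.2) = lc cq (m.step c).out
    rw [hres, hst]
    show _ = lc cq (c.out ++ r.2.2.toList)
    rw [lc_append]
  have hk3 : D.k = k := rfl
  by_cases h3 : j < 3 + k
  · obtain ⟨i, hi⟩ : ∃ i, j = 3 + i := ⟨j - 3, by omega⟩
    have hik : i < k := by omega
    subst hi
    rw [if_neg h0, if_neg h1, if_neg h2, hk3, if_pos h3, hfx, hhead i hik,
      cd_head m cS cs cq g R (m.step c) i hik]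
    have e : 3 + i - 3 = i := by omega
    rw [e]
    show (c.tape ⟨i, hik⟩).head + (if h : i < k then
      dc ((res m dS ds nS g (D.ky B z)).2.1 ⟨i, h⟩).2 else 0) - 1 = _
    rw [dif_pos hik, hres, dc_move, hst]
  · obtain ⟨i, hi⟩ : ∃ i, j = 3 + k + i := ⟨j - 3 - k, by omega⟩
    have hik : i < k := by omega
    subst hi
    rw [if_neg h0, if_neg h1, if_neg h2, hk3, if_neg h3, hfx]
    have e1 : 3 + k + i - 3 - k = i := by omega
    have e2 : 3 + k + i - k = 3 + i := by omega
    rw [e1, e2, hhead i hik, hsc i hik, htape i hik, cd_tape m cS cs cq g R (m.step c) i hik]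
    have hp : powT B g (c.tape ⟨i, hik⟩).head = g ^ (c.tape ⟨i, hik⟩).head :=
      powT_eq B g _ hg ((Nat.pow_le_pow_right hg (hR ⟨i, hik⟩).le).trans hB)
    have hDg : D.g = g := rfl
    rw [hDg, hp]
    show _ + (if h : i < k then cs ((res m dS ds nS g (D.ky B z)).2.1 ⟨i, h⟩).1 else 0) * _ - _ = _
    rw [dif_pos hik, hres, hst]
    exact (upd_tb m cs g (hR ⟨i, hik⟩) _ _).symm

end

end Pool.Agent.TH440.RM3
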